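import Pool.Agent.Lib_MP_debbfb_ins.Hall

/-!
# MP_debbfb_al: every countable locally finite group embeds in the limit
-/

set_option autoImplicit false

namespace Pool.MP_debbfb_al.Hall

theorem ext_one {H : Type} [Group H] (K L : Subgroup H) [Finite K] [Finite L] (h : K ≤ L) (f : K →* Lim)
    (hf : Function.Injective f) :
    ∃ g : L →* Lim, Function.Injective g ∧ ∀ x : K, g (Subgroup.inclusion h x) = f x := by
  obtain ⟨ψ, hψ⟩ := lim_univ L
  obtain ⟨x, hx⟩ := lim_homog K (ψ.comp (Subgroup.inclusion h)) f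
    (hψ.comp (Subgroup.inclusion_injective h)) hf
  refine ⟨(MulAut.conj x).toMonoidHom.comp ψ, (MulAut.conj x).injective.comp hψ, fun y => ?_⟩
  rw [hx]
  rfl

/-- every countable group whose finitely generated subgroups are finite embeds in the limit -/
theorem lim_count (H : Type) [Group H] [Countable H] (hH : ∀ K : Subgroup H, K.FG → Finite K) :
    ∃ f : H →* Lim, Function.Injective f := by
  classical
  obtain ⟨e, he⟩ := exists_surjective_nat H
  let K : ℕ → Subgroup H := fun n => Subgroup.closure ((Finset.range n).image e : Finset H)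
  have hfin : ∀ n, Finite (K n) := fun n => hH _ ⟨_, rfl⟩
  have hmono : Monotone K := by
    intro m n h
    refine Subgroup.closure_mono ?_
    intro x hx
    simp only [Finset.coe_image, Finset.coe_range, Set.mem_image, Set.mem_Iio] at hx ⊢
    obtain ⟨i, hi, rfl⟩ := hx
    exact ⟨i, lt_of_lt_of_le hi h, rfl⟩
  have hcov : ∀ x : H, ∃ n, x ∈ K n := by
    intro x
    obtain ⟨i, rfl⟩ := he x
    refine ⟨i + 1, Subgroup.subset_closure ?_⟩
    simp only [Finset.coe_image, Finset.coe_range, Set.mem_image, Set.mem_Iio]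
    exact ⟨i, Nat.lt_succ_self i, rfl⟩
  -- the chain of embeddings
  have hstep : ∀ n (f : {f : K n →* Lim // Function.Injective f}),
      ∃ g : {g : K (n + 1) →* Lim // Function.Injective g},
        ∀ x : K n, g.1 (Subgroup.inclusion (hmono (Nat.le_succ n)) x) = f.1 x := by
    intro n f
    have := hfin n
    have := hfin (n + 1)
    obtain ⟨g, hg, hx⟩ := ext_one (K n) (K (n + 1)) (hmono (Nat.le_succ n)) f.1 f.2
    exact ⟨⟨g, hg⟩, hx⟩
  choose nx hnx using hstep
  have h0 : ∃ f : {f : K 0 →* Lim // Function.Injective f}, True := by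
    have := hfin 0
    obtain ⟨f, hf⟩ := lim_univ (K 0)
    exact ⟨⟨f, hf⟩, trivial⟩
  obtain ⟨f0, -⟩ := h0
  let F : ∀ n, {f : K n →* Lim // Function.Injective f} := fun n => Nat.rec f0 (fun n f => nx n f) n
  have hF : ∀ n (x : H) (hx : x ∈ K n) (hx' : x ∈ K (n + 1)), (F (n + 1)).1 ⟨x, hx'⟩ = (F n).1 ⟨x, hx⟩ := by
    intro n x hx hx'
    exact hnx n (F n) ⟨x, hx⟩
  have hF2 : ∀ (x : H) (n m : ℕ) (h : n ≤ m) (hx : x ∈ K n), (F m).1 ⟨x, hmono h hx⟩ = (F n).1 ⟨x, hx⟩ := by
    intro x n m h hx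
    induction m, h using Nat.le_induction with
    | base => rfl
    | succ m hm ih =>
      rw [hF m x (hmono hm hx)]
      exact ih
  choose N hN using hcov
  have key : ∀ (x : H) (m : ℕ) (hx : x ∈ K m), (F (N x)).1 ⟨x, hN x⟩ = (F m).1 ⟨x, hx⟩ := by
    intro x m hx
    rw [← hF2 x (N x) (max (N x) m) (le_max_left _ _) (hN x), ← hF2 x m (max (N x) m) (le_max_right _ _) hx]
  have hadd : ∀ a b : H, (F (N (a * b))).1 ⟨a * b, hN (a * b)⟩ = (F (N a)).1 ⟨a, hN a⟩ * (F (N b)).1 ⟨b, hN b⟩ := by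
    intro a b
    have ha := hmono (le_max_left (N a) (N b)) (hN a)
    have hb := hmono (le_max_right (N a) (N b)) (hN b)
    rw [key a _ ha, key b _ hb, key (a * b) _ (mul_mem ha hb), ← map_mul]
    rfl
  refine ⟨MonoidHom.mk' (fun x => (F (N x)).1 ⟨x, hN x⟩) hadd, fun a b hab => ?_⟩
  have ha := hmono (le_max_left (N a) (N b)) (hN a)
  have hb := hmono (le_max_right (N a) (N b)) (hN b)
  have hab' : (F (N a)).1 ⟨a, hN a⟩ = (F (N b)).1 ⟨b, hN b⟩ := hab
  rw [key a _ ha, key b _ hb] at hab'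
  have h3 := (F (max (N a) (N b))).2 hab'
  exact congrArg Subtype.val h3

end Pool.MP_debbfb_al.Hall
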