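import Pool.Agent.Lib_MP_debbfb_al.Limit

/-!
# MP_debbfb_al: Philip Hall's universal locally finite group is a product of two 2-subgroups

The extension step of `Lib_MP_debbfb_al` is alternated with the embedding of a finite group `H` into the
symmetric group on two copies of `H`. The limit is a countable locally finite group which contains every finite
group, in which isomorphisms between finite subgroups are induced by inner automorphisms, and which is simple.
-/

set_option autoImplicit false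

namespace Pool.MP_debbfb_al.Hall

open Pool.MP_debbfb_al.Ext

section Finite

variable {H : Type} [Group H]

/-- left multiplication on two copies of the group -/
def dbl (H : Type) [Group H] : H →* Equiv.Perm (Fin 2 × H) where
  toFun h := Equiv.prodCongrRight (fun _ => Equiv.mulLeft h)
  map_one' := by
    ext x <;> simp
  map_mul' a b := by
    ext x <;> simp

theorem dbl_apply (h : H) (i : Fin 2) (x : H) : dbl H h (i, x) = (i, h * x) := rfl

theorem dbl_inj : Function.Injective (dbl H) := by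
  intro a b h
  have h1 := congrArg (fun σ : Equiv.Perm (Fin 2 × H) => (σ (0, 1)).2) h
  simpa [dbl_apply] using h1

theorem dbl_even [Fintype H] [DecidableEq H] (h : H) : Equiv.Perm.sign (dbl H h) = 1 := by
  have h1 : Equiv.Perm.sign (dbl H h) = ∏ _k : Fin 2, Equiv.Perm.sign (Equiv.mulLeft h) :=
    Equiv.Perm.sign_prodCongrRight (fun _ : Fin 2 => Equiv.mulLeft h)
  rw [h1, Fin.prod_univ_two, Int.units_mul_self]

/-- a finite group acting by left multiplication through an injective homomorphism: all orbits are regular -/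
theorem orb {F : Type} [Group F] (f : F →* H) (hf : Function.Injective f) :
    ∃ (Q : Type) (θ : Q × F ≃ H), ∀ q y z, θ (q, y * z) = f y * θ (q, z) := by
  obtain ⟨S, hS, -⟩ := Subgroup.exists_isComplement_right f.range 1
  have hb : Function.Bijective (fun p : S × F => f p.2 * p.1) := by
    have h1 : Function.Bijective (fun x : Prod ↑(f.range : Set H) ↑S => x.1.1 * x.2.1) := hS
    constructor
    · rintro ⟨⟨s, hs⟩, y⟩ ⟨⟨t, ht⟩, z⟩ h
      have h2 := @h1.1 (⟨f y, ⟨y, rfl⟩⟩, ⟨s, hs⟩) (⟨f z, ⟨z, rfl⟩⟩, ⟨t, ht⟩) h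
      rw [Prod.mk.injEq, Subtype.mk.injEq, Subtype.mk.injEq] at h2
      obtain ⟨h3, h4⟩ := h2
      have h5 := hf h3
      subst h4
      rw [h5]
    · intro x
      obtain ⟨⟨⟨_, ⟨y, rfl⟩⟩, s⟩, hx⟩ := h1.2 x
      exact ⟨(s, y), hx⟩
  refine ⟨S, Equiv.ofBijective _ hb, fun q y z => ?_⟩
  show f (y * z) * (q : H) = f y * (f z * (q : H))
  rw [map_mul, mul_assoc]

/-- two injective homomorphisms into a finite group become conjugate in the symmetric group -/
theorem conj_dbl [Finite H] {F : Type} [Group F] [Finite F] (f g : F →* H) (hf : Function.Injective f)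
    (hg : Function.Injective g) :
    ∃ σ : Equiv.Perm (Fin 2 × H), ∀ y, dbl H (g y) = σ * dbl H (f y) * σ⁻¹ := by
  obtain ⟨Q, θ, hθ⟩ := orb f hf
  obtain ⟨R, η, hη⟩ := orb g hg
  have hF : 0 < Nat.card F := Nat.card_pos
  have h1 : Nat.card Q * Nat.card F = Nat.card H := by
    rw [← Nat.card_prod]
    exact Nat.card_congr θ
  have h2 : Nat.card R * Nat.card F = Nat.card H := by
    rw [← Nat.card_prod]
    exact Nat.card_congr η
  have h3 : Nat.card Q = Nat.card R := Nat.eq_of_mul_eq_mul_right hF (h1.trans h2.symm)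
  have : Finite Q := Finite.of_injective (fun q => θ (q, 1)) (fun a b h => by
    have := θ.injective h
    rw [Prod.mk.injEq] at this
    exact this.1)
  have : Finite R := Finite.of_injective (fun q => η (q, 1)) (fun a b h => by
    have := η.injective h
    rw [Prod.mk.injEq] at this
    exact this.1)
  obtain ⟨e⟩ : Nonempty (Q ≃ R) := (Finite.card_eq).1 h3
  let τ : Equiv.Perm H := θ.symm.trans ((e.prodCongr (Equiv.refl F)).trans η)
  have hτ : ∀ y x, τ (f y * x) = g y * τ x := by
    intro y x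
    obtain ⟨⟨q, z⟩, rfl⟩ := θ.surjective x
    rw [← hθ]
    show η ((e.prodCongr (Equiv.refl F)) (θ.symm (θ (q, y * z)))) =
      g y * η ((e.prodCongr (Equiv.refl F)) (θ.symm (θ (q, z))))
    rw [Equiv.symm_apply_apply, Equiv.symm_apply_apply]
    exact hη (e q) y z
  refine ⟨Equiv.prodCongrRight (fun _ => τ), fun y => ?_⟩
  rw [eq_mul_inv_iff_mul_eq]
  ext ⟨i, x⟩
  · rfl
  · exact (hτ y x).symm

end Finite

/-! ### The chain -/

/-- the symmetric group on two copies of the group -/
def sym (T : Tri) : Tri where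
  H := Equiv.Perm (Fin 2 × T.H)
  A := T.A.map (dbl T.H)
  B := T.B.map (dbl T.H)
  hA := T.hA.map _
  hB := T.hB.map _

noncomputable def sq : ℕ → Tri
  | 0 => start
  | n + 1 => nxt (sym (sq n))

/-- the symmetric group inside the next group -/
noncomputable def em (n : ℕ) : Emb (sym (sq n)) (sq (n + 1)) := emb (sym (sq n))

/-- one step of the chain -/
noncomputable def stp (n : ℕ) : Emb (sq n) (sq (n + 1)) :=
  Emb.comp (T' := sym (sq n)) { j := dbl (sq n).H, inj := dbl_inj, hA := le_rfl, hB := le_rfl } (em n)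

theorem stp_j (n : ℕ) (x : (sq n).H) : (stp n).j x = (em n).j (dbl (sq n).H x) := rfl

theorem stp_spec (n : ℕ) (h : (sq n).H) :
    ∃ a ∈ (sq (n + 1)).A, ∃ b ∈ (sq (n + 1)).B, (stp n).j h = a * b :=
  emb_spec (sym (sq n)) (dbl (sq n).H h)

/-- transition maps -/
noncomputable def tr (i j : ℕ) (h : i ≤ j) : (sq i).H →* (sq j).H where
  toFun := Nat.leRecOn (C := fun n => (sq n).H) h (fun {k} => (stp k).j)
  map_one' := by
    induction j, h using Nat.le_induction with
    | base => rw [Nat.leRecOn_self]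
    | succ j hij ih =>
      rw [Nat.leRecOn_succ hij, ih]
      exact map_one (stp j).j
  map_mul' x y := by
    induction j, h using Nat.le_induction with
    | base => rw [Nat.leRecOn_self, Nat.leRecOn_self, Nat.leRecOn_self]
    | succ j hij ih =>
      rw [Nat.leRecOn_succ hij, Nat.leRecOn_succ hij, Nat.leRecOn_succ hij, ih]
      exact map_mul (stp j).j _ _

theorem tr_self (i : ℕ) (x : (sq i).H) : tr i i le_rfl x = x :=
  Nat.leRecOn_self (C := fun n => (sq n).H) x

theorem tr_succ (i j : ℕ) (h : i ≤ j) (x : (sq i).H) :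
    tr i (j+1) (h.trans (Nat.le_succ j)) x = (stp j).j (tr i j h x) :=
  Nat.leRecOn_succ (C := fun n => (sq n).H) h x

theorem tr_trans (i j k : ℕ) (hij : i ≤ j) (hjk : j ≤ k) (x : (sq i).H) :
    tr j k hjk (tr i j hij x) = tr i k (hij.trans hjk) x :=
  (Nat.leRecOn_trans (C := fun n => (sq n).H) hij hjk x).symm

theorem tr_inj (i j : ℕ) (h : i ≤ j) : Function.Injective (tr i j h) :=
  Nat.leRecOn_injective (C := fun n => (sq n).H) h _ (fun n => (stp n).inj)

theorem tr_A (i j : ℕ) (h : i ≤ j) : (sq i).A.map (tr i j h) ≤ (sq j).A := by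
  induction j, h using Nat.le_induction with
  | base =>
    rintro _ ⟨x, hx, rfl⟩
    rw [tr_self]; exact hx
  | succ j hij ih =>
    rintro _ ⟨x, hx, rfl⟩
    rw [tr_succ i j hij]
    exact (stp j).hA ⟨_, ih ⟨x, hx, rfl⟩, rfl⟩

theorem tr_B (i j : ℕ) (h : i ≤ j) : (sq i).B.map (tr i j h) ≤ (sq j).B := by
  induction j, h using Nat.le_induction with
  | base =>
    rintro _ ⟨x, hx, rfl⟩
    rw [tr_self]; exact hx
  | succ j hij ih =>
    rintro _ ⟨x, hx, rfl⟩
    rw [tr_succ i j hij]
    exact (stp j).hB ⟨_, ih ⟨x, hx, rfl⟩, rfl⟩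

instance : DirectedSystem (fun n => (sq n).H) (fun i j h => tr i j h) where
  map_self _ x := tr_self _ x
  map_map _ _ _ hij hjk x := tr_trans _ _ _ hij hjk x

/-- the limit group -/
abbrev Lim : Type := DirectLimit (fun n => (sq n).H) tr

noncomputable instance : Group Lim := inferInstance

/-- the canonical maps -/
noncomputable def of (n : ℕ) : (sq n).H →* Lim where
  toFun x := ⟦⟨n, x⟩⟧
  map_one' := (DirectLimit.one_def (f := tr) n).symm
  map_mul' x y := (DirectLimit.mul_def (f := tr) n x y).symm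

theorem of_inj (n : ℕ) : Function.Injective (of n) :=
  DirectLimit.mk_injective tr (fun i j h => tr_inj i j h) n

theorem of_tr (i j : ℕ) (h : i ≤ j) (x : (sq i).H) : of j (tr i j h x) = of i x := by
  show (⟦⟨j, tr i j h x⟩⟧ : DirectLimit (fun n => (sq n).H) tr) = ⟦⟨i, x⟩⟧
  exact DirectLimit.mk_apply (f := tr) i j x h

theorem exists_of (z : Lim) : ∃ n x, z = of n x := DirectLimit.exists_eq_mk tr z

theorem of_up {z : Lim} {n k : ℕ} (h : n ≤ k) {x : (sq n).H} (hz : z = of n x) : ∃ y, z = of k y :=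
  ⟨tr n k h x, by rw [of_tr, hz]⟩

theorem A_mono : Monotone (fun n => (sq n).A.map (of n)) := by
  intro i j h
  rintro _ ⟨x, hx, rfl⟩
  exact ⟨tr i j h x, tr_A i j h ⟨x, hx, rfl⟩, of_tr i j h x⟩

theorem B_mono : Monotone (fun n => (sq n).B.map (of n)) := by
  intro i j h
  rintro _ ⟨x, hx, rfl⟩
  exact ⟨tr i j h x, tr_B i j h ⟨x, hx, rfl⟩, of_tr i j h x⟩

theorem range_mono : Monotone (fun n => (of n).range) := by
  intro i j h
  rintro _ ⟨x, rfl⟩
  exact ⟨tr i j h x, of_tr i j h x⟩

/-- the symmetric group on two copies of the `n`-th group, inside the limit -/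
noncomputable def oS (n : ℕ) : Equiv.Perm (Fin 2 × (sq n).H) →* Lim := (of (n + 1)).comp (em n).j

theorem oS_inj (n : ℕ) : Function.Injective (oS n) := (of_inj (n + 1)).comp (em n).inj

theorem oS_dbl (n : ℕ) (x : (sq n).H) : oS n (dbl (sq n).H x) = of n x := by
  show of (n + 1) ((em n).j (dbl (sq n).H x)) = of n x
  rw [← stp_j, ← of_tr n (n + 1) (Nat.le_succ n), tr_succ n n le_rfl, tr_self]

/-! ### The properties -/

theorem lim_countable : Countable Lim := by
  have h1 : Function.Surjective (fun p : Σ n, (sq n).H => of p.1 p.2) := by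
    intro z
    obtain ⟨n, x, hx⟩ := exists_of z
    exact ⟨⟨n, x⟩, hx.symm⟩
  have h2 : ∀ n, Countable (sq n).H := fun n => inferInstance
  have h3 : Countable (Σ n, (sq n).H) := inferInstance
  exact h1.countable

/-- a finite subset of the limit lies in a member of the chain -/
theorem fin_range (s : Finset Lim) : ∃ n, (s : Set Lim) ⊆ (of n).range :=
  finset_le (fun n => (of n).range) range_mono s (fun x _ => by
    obtain ⟨n, y, rfl⟩ := exists_of x
    exact ⟨n, ⟨y, rfl⟩⟩)

theorem lim_fin (K : Subgroup Lim) (hK : K.FG) : Finite K := by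
  obtain ⟨s, rfl⟩ := hK
  obtain ⟨n, hn⟩ := fin_range s
  have hle : Subgroup.closure (s : Set Lim) ≤ (of n).range := (Subgroup.closure_le _).mpr hn
  have : Finite (of n).range := Finite.of_surjective _ (of n).rangeRestrict_surjective
  exact Finite.of_injective _ (Subgroup.inclusion_injective hle)

/-- the first factor -/
noncomputable def LA : Subgroup Lim := ⨆ n, (sq n).A.map (of n)

/-- the second factor -/
noncomputable def LB : Subgroup Lim := ⨆ n, (sq n).B.map (of n)

theorem LA_p : IsPGroup 2 LA := by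
  rintro ⟨x, hx⟩
  have hx' := hx
  unfold LA at hx'
  rw [Subgroup.mem_iSup_of_directed A_mono.directed_le] at hx'
  obtain ⟨n, y, hy, rfl⟩ := hx'
  obtain ⟨k, hk⟩ := (sq n).hA ⟨y, hy⟩
  refine ⟨k, ?_⟩
  have h1 : y ^ 2 ^ k = 1 := congrArg Subtype.val hk
  apply Subtype.ext
  show (of n y) ^ 2 ^ k = 1
  rw [← map_pow, h1, map_one]

theorem LB_p : IsPGroup 2 LB := by
  rintro ⟨x, hx⟩
  have hx' := hx
  unfold LB at hx'
  rw [Subgroup.mem_iSup_of_directed B_mono.directed_le] at hx'
  obtain ⟨n, y, hy, rfl⟩ := hx'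
  obtain ⟨k, hk⟩ := (sq n).hB ⟨y, hy⟩
  refine ⟨k, ?_⟩
  have h1 : y ^ 2 ^ k = 1 := congrArg Subtype.val hk
  apply Subtype.ext
  show (of n y) ^ 2 ^ k = 1
  rw [← map_pow, h1, map_one]

theorem lim_prod (z : Lim) : ∃ a ∈ LA, ∃ b ∈ LB, z = a * b := by
  obtain ⟨n, x, rfl⟩ := exists_of z
  obtain ⟨a, ha, b, hb, hab⟩ := stp_spec n x
  have e : of n x = of (n+1) ((stp n).j x) := by
    rw [← of_tr n (n+1) (Nat.le_succ n), tr_succ n n le_rfl, tr_self]
  refine ⟨of (n+1) a, ?_, of (n+1) b, ?_, ?_⟩
  · exact Subgroup.mem_iSup_of_mem (n+1) ⟨a, ha, rfl⟩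
  · exact Subgroup.mem_iSup_of_mem (n+1) ⟨b, hb, rfl⟩
  · rw [e, hab]
    exact map_mul (of (n+1)) a b

/-- a finitely generated subgroup of a 2-subgroup of the limit is nilpotent -/
theorem nilp_of_p (A : Subgroup Lim) (hA : IsPGroup 2 A) (K : Subgroup Lim) (hK : K ≤ A) (hf : K.FG) :
    Group.IsNilpotent K := by
  have h1 := lim_fin K hf
  exact (hA.to_le hK).isNilpotent

theorem sq_card (n : ℕ) : n + 3 ≤ Nat.card (sq n).H := by
  induction n with
  | zero =>
    have h1 : Nat.card (sq 0).H = Nat.card (Equiv.Perm (Fin 5)) := rfl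
    rw [h1, Nat.card_perm, Nat.card_eq_fintype_card, Fintype.card_fin]
    decide
  | succ n ih =>
    have h1 : Nat.card (Equiv.Perm (Fin 2 × (sq n).H)) ≤ Nat.card (sq (n + 1)).H :=
      Nat.card_le_card_of_injective (em n).j (em n).inj
    have h2 : Nat.card (Fin 2 × (sq n).H) = 2 * Nat.card (sq n).H := by
      rw [Nat.card_prod, Nat.card_eq_fintype_card, Fintype.card_fin]
    rw [Nat.card_perm, h2] at h1
    have h3 := Nat.self_le_factorial (2 * Nat.card (sq n).H)
    omega

/-- every finite group embeds -/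
theorem lim_univ (F : Type) [Group F] [Finite F] : ∃ f : F →* Lim, Function.Injective f := by
  classical
  set n := Nat.card F with hn
  have h1 : Nat.card F ≤ Nat.card (Fin 2 × (sq n).H) := by
    have h2 := sq_card n
    have h3 : Nat.card (Fin 2 × (sq n).H) = 2 * Nat.card (sq n).H := by
      rw [Nat.card_prod, Nat.card_eq_fintype_card, Fintype.card_fin]
    rw [h3, ← hn]
    omega
  obtain ⟨ι⟩ : Nonempty (F ↪ Fin 2 × (sq n).H) := by
    have := Fintype.ofFinite F
    have := Fintype.ofFinite (Fin 2 × (sq n).H)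
    rw [Nat.card_eq_fintype_card, Nat.card_eq_fintype_card] at h1
    exact Function.Embedding.nonempty_of_card_le h1
  refine ⟨(oS n).comp ((Equiv.Perm.viaEmbeddingHom ι).comp (MulAction.toPermHom F F)), ?_⟩
  exact (oS_inj n).comp ((Equiv.Perm.viaEmbeddingHom_injective ι).comp MulAction.toPerm_injective)

/-- isomorphisms between finite subgroups are induced by inner automorphisms -/
theorem lim_homog (F : Type) [Group F] [Finite F] (f g : F →* Lim) (hf : Function.Injective f)
    (hg : Function.Injective g) : ∃ x, ∀ y, g y = x * f y * x⁻¹ := by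
  classical
  have := Fintype.ofFinite F
  obtain ⟨n, hn⟩ := fin_range (Finset.univ.image f ∪ Finset.univ.image g)
  have h1 : ∀ y, f y ∈ (of n).range := fun y => hn (by simp)
  have h2 : ∀ y, g y ∈ (of n).range := fun y => hn (by simp)
  let e : (sq n).H ≃* (of n).range := (of n).ofInjective (of_inj n)
  have he : ∀ w : (of n).range, of n (e.symm w) = w := by
    intro w
    have h3 : e (e.symm w) = w := e.apply_symm_apply w
    exact congrArg Subtype.val h3
  let f' : F →* (sq n).H := e.symm.toMonoidHom.comp (f.codRestrict _ h1)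
  let g' : F →* (sq n).H := e.symm.toMonoidHom.comp (g.codRestrict _ h2)
  have hf1 : ∀ y, of n (f' y) = f y := fun y => he ⟨f y, h1 y⟩
  have hg1 : ∀ y, of n (g' y) = g y := fun y => he ⟨g y, h2 y⟩
  have hf2 : Function.Injective f' := by
    intro a b hab
    apply hf
    rw [← hf1, ← hf1, hab]
  have hg2 : Function.Injective g' := by
    intro a b hab
    apply hg
    rw [← hg1, ← hg1, hab]
  obtain ⟨σ, hσ⟩ := conj_dbl f' g' hf2 hg2
  refine ⟨oS n σ, fun y => ?_⟩
  rw [← hf1, ← hg1, ← oS_dbl, ← oS_dbl, hσ, map_mul, map_mul, map_inv]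

/-- the limit is simple -/
theorem lim_simple : IsSimpleGroup Lim := by
  classical
  have hnt : Nontrivial Lim := by
    have h0 : Nontrivial (sq 0).H := by
      show Nontrivial (Equiv.Perm (Fin 5))
      infer_instance
    exact (of_inj 0).nontrivial
  refine ⟨fun N hN => ?_⟩
  rw [or_iff_not_imp_left]
  intro hne
  obtain ⟨z, hzN, hz1⟩ := (Subgroup.ne_bot_iff_exists_ne_one.1 hne |> fun ⟨a, ha⟩ =>
    (⟨a.1, a.2, fun h => ha (Subtype.ext h)⟩ : ∃ z, z ∈ N ∧ z ≠ 1))
  rw [eq_top_iff]
  rintro g -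
  obtain ⟨n, x, hx⟩ := exists_of z
  obtain ⟨m, y, hy⟩ := exists_of g
  obtain ⟨k, hk1, hk2⟩ : ∃ k, n ≤ k ∧ m ≤ k := ⟨max n m, le_max_left _ _, le_max_right _ _⟩
  obtain ⟨x', hx'⟩ := of_up hk1 hx
  obtain ⟨y', hy'⟩ := of_up hk2 hy
  have := Fintype.ofFinite (sq k).H
  have hM : (N.comap (oS k)).Normal := hN.comap (oS k)
  have hnt2 : Nontrivial (N.comap (oS k)) := by
    rw [Subgroup.nontrivial_iff_exists_ne_one]
    refine ⟨dbl (sq k).H x', ?_, ?_⟩
    · rw [Subgroup.mem_comap, oS_dbl, ← hx']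
      exact hzN
    · intro h
      apply hz1
      rw [hx', ← oS_dbl, h, map_one]
  have hcard : 5 ≤ Nat.card (Fin 2 × (sq k).H) := by
    have h3 : Nat.card (Fin 2 × (sq k).H) = 2 * Nat.card (sq k).H := by
      rw [Nat.card_prod, Nat.card_eq_fintype_card, Fintype.card_fin]
    have h4 := sq_card k
    omega
  have hle := Equiv.Perm.alternatingGroup_le_of_normal hcard hnt2
  have hmem : dbl (sq k).H y' ∈ N.comap (oS k) := hle (Equiv.Perm.mem_alternatingGroup.2 (dbl_even y'))
  rw [Subgroup.mem_comap, oS_dbl, ← hy'] at hmem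
  exact hmem

end Pool.MP_debbfb_al.Hall
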